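import Pool.Agent.Helper11.TB.Saddle

/-!
# Existence of the saddle
-/

namespace Pool.Agent.Helper11.TB

open Real MeasureTheory Filter Topology
open Pool.Agent.Helper9.TB

/-- antiderivative of the Poisson-type kernel -/
lemma at_deriv (h : ℝ) {u : ℝ} (hu : Real.cos (π * u) ≠ 0) :
    HasDerivAt (fun u => Real.arctan (Real.tanh (π * h) * Real.tan (π * u)))
      (π * Real.sinh (2 * π * h) / (Real.cosh (2 * π * h) + Real.cos (2 * π * u))) u := by
  have h1 : HasDerivAt (fun u : ℝ => π * u) π u := by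
    simpa using (hasDerivAt_id u).const_mul π
  have h2 : HasDerivAt (fun u => Real.tan (π * u)) (1 / Real.cos (π * u) ^ 2 * π) u :=
    HasDerivAt.comp (h₂ := Real.tan) u (Real.hasDerivAt_tan hu) h1
  have h3 := (h2.const_mul (Real.tanh (π * h))).arctan
  refine h3.congr_deriv ?_
  have hc : 0 < Real.cosh (π * h) := Real.cosh_pos _
  have e1 : Real.sinh (2 * π * h) = 2 * Real.sinh (π * h) * Real.cosh (π * h) := by
    rw [show 2 * π * h = 2 * (π * h) by ring, Real.sinh_two_mul]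
  have e2 : Real.cosh (2 * π * h) = 2 * Real.cosh (π * h) ^ 2 - 1 := by
    rw [show 2 * π * h = 2 * (π * h) by ring, Real.cosh_two_mul, Real.sinh_sq]
    ring
  have e3 : Real.cos (2 * π * u) = 2 * Real.cos (π * u) ^ 2 - 1 := by
    rw [show 2 * π * u = 2 * (π * u) by ring, Real.cos_two_mul]
  have e4 := Real.cosh_sq (π * h)
  have e5 := Real.sin_sq_add_cos_sq (π * u)
  rw [e1, e2, e3, Real.tanh_eq_sinh_div_cosh, Real.tan_eq_sin_div_cos]
  have p1 : 0 < Real.cosh (π * h) ^ 2 + Real.cos (π * u) ^ 2 - 1 := by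
    have : 0 < Real.cos (π * u) ^ 2 := by positivity
    nlinarith only [sq_nonneg (Real.sinh (π * h)), this, e4]
  have p2 : (1 + (Real.sinh (π * h) / Real.cosh (π * h) * (Real.sin (π * u) / Real.cos (π * u))) ^ 2)
      = (Real.cosh (π * h) ^ 2 + Real.cos (π * u) ^ 2 - 1) /
        (Real.cosh (π * h) ^ 2 * Real.cos (π * u) ^ 2) := by
    have e6 : Real.sinh (π * h) ^ 2 = Real.cosh (π * h) ^ 2 - 1 := by linarith only [e4]
    have e7 : Real.sin (π * u) ^ 2 = 1 - Real.cos (π * u) ^ 2 := by linarith only [e5]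
    rw [mul_pow, div_pow, div_pow, e6, e7]
    field_simp
    ring
  rw [p2]
  rw [show 2 * Real.cosh (π * h) ^ 2 - 1 + (2 * Real.cos (π * u) ^ 2 - 1) =
    2 * (Real.cosh (π * h) ^ 2 + Real.cos (π * u) ^ 2 - 1) by ring]
  field_simp

lemma cos_pos_half {u : ℝ} (h0 : -(1 / 2) < u) (h1 : u < 1 / 2) : 0 < Real.cos (π * u) := by
  have hpi := Real.pi_pos
  apply Real.cos_pos_of_mem_Ioo
  constructor <;> nlinarith only [hpi, h0, h1]

lemma int_kernel {h a b : ℝ} (hh : 0 < h) (hab : a ≤ b) (h0 : -(1 / 2) < a) (h1 : b < 1 / 2) :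
    ∫ u in a..b, π * Real.sinh (2 * π * h) / (Real.cosh (2 * π * h) + Real.cos (2 * π * u)) =
      Real.arctan (Real.tanh (π * h) * Real.tan (π * b)) -
        Real.arctan (Real.tanh (π * h) * Real.tan (π * a)) := by
  apply intervalIntegral.integral_eq_sub_of_hasDerivAt
  · intro u hu
    rw [Set.uIcc_of_le hab] at hu
    exact at_deriv h (cos_pos_half (by linarith only [hu.1, hu, h0]) (by linarith only [hu.2, hu, h1])).ne'
  · apply Continuous.intervalIntegrable
    apply Continuous.div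
    · fun_prop
    · fun_prop
    · exact fun u => (arg_pos' hh u).ne'

/-- the positive root -/
noncomputable def kq (ρ h : ℝ) : ℝ :=
  (Real.cosh (2 * π * h) - Real.cosh (2 * π * ρ * h) +
    Real.sqrt ((Real.cosh (2 * π * ρ * h) - Real.cosh (2 * π * h)) ^ 2 +
      4 * (2 - Real.cosh (2 * π * ρ * h) * Real.cosh (2 * π * h)))) / 2

/-- the corresponding `ξ` -/
noncomputable def xq (ρ h : ℝ) : ℝ := Real.arccos (kq ρ h) / (2 * π)

lemma kq_root {ρ h : ℝ} (hs : Real.cosh (2 * π * ρ * h) * Real.cosh (2 * π * h) ≤ 2) :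
    kq ρ h ^ 2 + (Real.cosh (2 * π * ρ * h) - Real.cosh (2 * π * h)) * kq ρ h +
      (Real.cosh (2 * π * ρ * h) * Real.cosh (2 * π * h) - 2) = 0 := by
  have h1 : 0 ≤ (Real.cosh (2 * π * ρ * h) - Real.cosh (2 * π * h)) ^ 2 +
      4 * (2 - Real.cosh (2 * π * ρ * h) * Real.cosh (2 * π * h)) := by
    have := sq_nonneg (Real.cosh (2 * π * ρ * h) - Real.cosh (2 * π * h))
    linarith
  have h2 := Real.sq_sqrt h1
  unfold kq
  linear_combination h2 / 4

lemma C_le_M {ρ h : ℝ} (hρ : 1 ≤ ρ) (hh : 0 ≤ h) :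
    Real.cosh (2 * π * h) ≤ Real.cosh (2 * π * ρ * h) := by
  have hpi := Real.pi_pos
  rw [Real.cosh_le_cosh, abs_of_nonneg (by positivity), abs_of_nonneg (by positivity)]
  have : 0 ≤ (ρ - 1) * (2 * π * h) := mul_nonneg (by linarith) (by positivity)
  linarith

lemma C_lt_M {ρ h : ℝ} (hρ : 1 < ρ) (hh : 0 < h) :
    Real.cosh (2 * π * h) < Real.cosh (2 * π * ρ * h) := by
  have hpi := Real.pi_pos
  rw [Real.cosh_lt_cosh, abs_of_nonneg (by positivity), abs_of_nonneg (by positivity)]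
  have : 0 < (ρ - 1) * (2 * π * h) := mul_pos (by linarith) (by positivity)
  linarith

lemma kq_nonneg {ρ h : ℝ} (hρ : 1 ≤ ρ) (hh : 0 ≤ h)
    (hs : Real.cosh (2 * π * ρ * h) * Real.cosh (2 * π * h) ≤ 2) : 0 ≤ kq ρ h := by
  have h1 := C_le_M hρ hh
  have h2 : Real.cosh (2 * π * ρ * h) - Real.cosh (2 * π * h) ≤
      Real.sqrt ((Real.cosh (2 * π * ρ * h) - Real.cosh (2 * π * h)) ^ 2 +
      4 * (2 - Real.cosh (2 * π * ρ * h) * Real.cosh (2 * π * h))) := by
    apply Real.le_sqrt_of_sq_le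
    linarith
  unfold kq
  linarith

lemma kq_le_one {ρ h : ℝ} (hρ : 1 ≤ ρ) (hh : 0 ≤ h)
    (_hs : Real.cosh (2 * π * ρ * h) * Real.cosh (2 * π * h) ≤ 2) : kq ρ h ≤ 1 := by
  have h1 := C_le_M hρ hh
  have h3 := one_le_C h
  have h4 := Real.one_le_cosh (2 * π * ρ * h)
  have h2 : Real.sqrt ((Real.cosh (2 * π * ρ * h) - Real.cosh (2 * π * h)) ^ 2 +
      4 * (2 - Real.cosh (2 * π * ρ * h) * Real.cosh (2 * π * h))) ≤
      2 + Real.cosh (2 * π * ρ * h) - Real.cosh (2 * π * h) := by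
    rw [Real.sqrt_le_left (by linarith only [h1])]
    nlinarith only [mul_nonneg (sub_nonneg.2 h4) (by linarith : 0 ≤ Real.cosh (2 * π * h) + 1), h3, h4]
  unfold kq
  linarith

lemma kq_lt_one {ρ h : ℝ} (hρ : 1 ≤ ρ) (hh : 0 < h)
    (hs : Real.cosh (2 * π * ρ * h) * Real.cosh (2 * π * h) ≤ 2) : kq ρ h < 1 := by
  have h0 := kq_le_one hρ hh.le hs
  rcases h0.lt_or_eq with h1 | h1
  · exact h1
  · exfalso
    have h2 := kq_root hs
    rw [h1] at h2
    have h3 := one_lt_C hh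
    have h4 := C_le_M hρ hh.le
    nlinarith only [mul_pos (by linarith : 0 < Real.cosh (2 * π * ρ * h) - 1)
      (by linarith : 0 < Real.cosh (2 * π * h) + 1), h4, h3, h2]

lemma cos_xq {ρ h : ℝ} (hρ : 1 ≤ ρ) (hh : 0 ≤ h)
    (hs : Real.cosh (2 * π * ρ * h) * Real.cosh (2 * π * h) ≤ 2) :
    Real.cos (2 * π * xq ρ h) = kq ρ h := by
  have hpi := Real.pi_pos
  unfold xq
  rw [mul_div_cancel₀ _ (by positivity : 2 * π ≠ 0), Real.cos_arccos
    (by linarith [kq_nonneg hρ hh hs]) (kq_le_one hρ hh hs)]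

lemma xq_nonneg (ρ h : ℝ) : 0 ≤ xq ρ h := by
  unfold xq
  have hpi := Real.pi_pos
  have := Real.arccos_nonneg (kq ρ h)
  positivity

lemma xq_le {ρ h : ℝ} (hρ : 1 ≤ ρ) (hh : 0 ≤ h)
    (hs : Real.cosh (2 * π * ρ * h) * Real.cosh (2 * π * h) ≤ 2) : xq ρ h ≤ 1 / 4 := by
  have hpi := Real.pi_pos
  unfold xq
  rw [div_le_iff₀ (by positivity)]
  have : Real.arccos (kq ρ h) ≤ π / 2 := Real.arccos_le_pi_div_two.2 (kq_nonneg hρ hh hs)
  linarith only [this]

lemma xq_pos {ρ h : ℝ} (hρ : 1 ≤ ρ) (hh : 0 < h)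
    (hs : Real.cosh (2 * π * ρ * h) * Real.cosh (2 * π * h) ≤ 2) : 0 < xq ρ h := by
  have hpi := Real.pi_pos
  unfold xq
  exact div_pos (Real.arccos_pos.2 (kq_lt_one hρ hh hs)) (by positivity)

lemma xq_s1 {ρ h : ℝ} (hρ : 1 ≤ ρ) (hh : 0 ≤ h)
    (hs : Real.cosh (2 * π * ρ * h) * Real.cosh (2 * π * h) ≤ 2) :
    Real.cosh (2 * π * ρ * h) = WW h (xq ρ h) := by
  have h1 := kq_root hs
  have h2 := kq_nonneg hρ hh hs
  have h3 := one_le_C h
  unfold WW
  rw [cos_xq hρ hh hs, eq_div_iff (by linarith)]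
  linarith only [h1]

/-- bounds for `kap / 2`, including `h = 0` -/
lemma kap_bounds' {h ξ : ℝ} (hC : Real.cosh (2 * π * h) ^ 2 < 2) (h0 : 0 ≤ ξ)
    (h1 : ξ ≤ 1 / 4) : -1 < kap h ξ / 2 ∧ kap h ξ / 2 < 1 := by
  have hd := den_pos (h := h) h0 h1
  have h2 := cos_nonneg_quarter h0 h1
  have h3 := one_le_C h
  have h4 := Real.cos_le_one (2 * π * ξ)
  unfold kap
  constructor
  · rw [lt_div_iff₀ (by norm_num : (0 : ℝ) < 2), lt_div_iff₀ hd]
    nlinarith only [h4, h3, h2, hd, hC]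
  · rw [div_lt_iff₀ (by norm_num : (0 : ℝ) < 2), div_lt_iff₀ hd]
    nlinarith only [hC, h3, h2, hd]

lemma x0_mem' {h ξ : ℝ} (hC : Real.cosh (2 * π * h) ^ 2 < 2) (h0 : 0 ≤ ξ)
    (h1 : ξ ≤ 1 / 4) : 0 < x0 h ξ ∧ ξ + x0 h ξ < 1 / 2 := by
  have hpi := Real.pi_pos
  obtain ⟨b1, b2⟩ := kap_bounds' hC h0 h1
  have hd := den_pos (h := h) h0 h1
  have h2 := cos_nonneg_quarter h0 h1
  have h3 := one_le_C h
  constructor
  · exact div_pos (Real.arccos_pos.2 b2) (by positivity)
  · have h5 : -Real.cos (2 * π * ξ) < kap h ξ / 2 := by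
      unfold kap
      rw [lt_div_iff₀ (by norm_num : (0 : ℝ) < 2), lt_div_iff₀ hd]
      nlinarith only [mul_nonneg h2 h2, mul_nonneg (mul_nonneg h2 h2) (by linarith : 0 ≤ 2 * Real.cosh (2 * π * h) - 1), h3, h2, hC]
    have h6 : Real.arccos (kap h ξ / 2) < Real.arccos (-Real.cos (2 * π * ξ)) :=
      Real.arccos_lt_arccos (by linarith [Real.cos_le_one (2 * π * ξ)]) h5 b2.le
    rw [Real.arccos_neg, Real.arccos_cos (by positivity) (by nlinarith)] at h6
    unfold x0
    have h7 : Real.arccos (kap h ξ / 2) / (2 * π) < (π - 2 * π * ξ) / (2 * π) :=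
      div_lt_div_of_pos_right h6 (by positivity)
    have h8 : (π - 2 * π * ξ) / (2 * π) = 1 / 2 - ξ := by field_simp
    linarith

lemma tanh_cont : Continuous Real.tanh := by
  have : Real.tanh = fun x => Real.sinh x / Real.cosh x := funext Real.tanh_eq_sinh_div_cosh
  rw [this]
  exact Real.continuous_sinh.div Real.continuous_cosh fun x => (Real.cosh_pos x).ne'

/-- the function whose zero gives the saddle -/
noncomputable def sfun (ρ c h : ℝ) : ℝ :=
  2 * π * ρ * (c - xq ρ h) -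
    (Real.arctan (Real.tanh (π * h) * Real.tan (π * (xq ρ h + x0 h (xq ρ h)))) -
      Real.arctan (Real.tanh (π * h) * Real.tan (π * (xq ρ h - x0 h (xq ρ h)))))

lemma xq_cont (ρ : ℝ) : Continuous (xq ρ) := by
  unfold xq kq
  fun_prop

/-- (C) -/
theorem exists_saddle {ρ c : ℝ} (hρ : 1 < ρ) (c0 : 0 < c) (hc : c ≤ 1 / 4) :
    ∃ h ξ, Saddle ρ c h ξ := by
  have hpi := Real.pi_pos
  -- the maximal `h`
  have hFc : Continuous fun h => Real.cosh (2 * π * ρ * h) * Real.cosh (2 * π * h) := by fun_prop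
  obtain ⟨hm, hm1, hm2⟩ : (2 : ℝ) ∈ (fun h => Real.cosh (2 * π * ρ * h) * Real.cosh (2 * π * h)) ''
      Set.Icc 0 1 := by
    apply intermediate_value_Icc (zero_le_one) hFc.continuousOn
    constructor
    · simp
    · have h1 : 2 ≤ Real.cosh (2 * π * 1) := by
        have e1 : (2 : ℝ) ≤ 1 + 2 * π * 1 := by nlinarith only [Real.pi_gt_three, hc, c0]
        have e2 : 2 * π * 1 + 1 ≤ Real.exp (2 * π * 1) := Real.add_one_le_exp _
        rw [Real.cosh_eq]
        have e3 := Real.exp_pos (-(2 * π * 1))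
        have e4 := Real.pi_gt_three
        linarith only [e4, e3, e2, hc, c0]
      have h2 : 1 ≤ Real.cosh (2 * π * ρ * 1) := Real.one_le_cosh _
      nlinarith only [hc, c0, h2, h1]
  simp only at hm2
  have hm0 : 0 < hm := by
    rcases hm1.1.eq_or_lt with h | h
    · rw [← h] at hm2
      simp at hm2
    · exact h
  have hlt : ∀ h, 0 ≤ h → h < hm → Real.cosh (2 * π * ρ * h) * Real.cosh (2 * π * h) < 2 := by
    intro h h0 h1
    have a1 : Real.cosh (2 * π * ρ * h) < Real.cosh (2 * π * ρ * hm) := by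
      rw [Real.cosh_lt_cosh, abs_of_nonneg (by positivity), abs_of_nonneg (by positivity)]
      exact mul_lt_mul_of_pos_left h1 (by positivity)
    have a2 : Real.cosh (2 * π * h) ≤ Real.cosh (2 * π * hm) := by
      rw [Real.cosh_le_cosh, abs_of_nonneg (by positivity), abs_of_nonneg (by positivity)]
      exact mul_le_mul_of_nonneg_left h1.le (by positivity)
    have a3 := mul_lt_mul a1 a2 (Real.cosh_pos _) (Real.cosh_pos _).le
    linarith only [a3, hm2]
  have hle : ∀ h ∈ Set.Icc 0 hm, Real.cosh (2 * π * ρ * h) * Real.cosh (2 * π * h) ≤ 2 := by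
    intro h hh
    rcases hh.2.lt_or_eq with h1 | h1
    · exact (hlt h hh.1 h1).le
    · rw [h1, hm2]
  have hC2 : ∀ h ∈ Set.Icc 0 hm, Real.cosh (2 * π * h) ^ 2 < 2 := by
    intro h hh
    have h1 := hle h hh
    have h2 := one_le_C h
    rcases hh.1.eq_or_lt with h3 | h3
    · rw [← h3]
      norm_num
    · have := C_lt_M hρ h3
      nlinarith only [h2, hc, this, c0, h1]
  have hxq : ∀ h ∈ Set.Icc 0 hm, 0 ≤ xq ρ h ∧ xq ρ h ≤ 1 / 4 := fun h hh =>
    ⟨xq_nonneg _ _, xq_le hρ.le hh.1 (hle h hh)⟩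
  have hx0 : ∀ h ∈ Set.Icc 0 hm, 0 < x0 h (xq ρ h) ∧ xq ρ h + x0 h (xq ρ h) < 1 / 2 :=
    fun h hh => x0_mem' (hC2 h hh) (hxq h hh).1 (hxq h hh).2
  -- continuity
  have cx0 : ContinuousOn (fun h => x0 h (xq ρ h)) (Set.Icc 0 hm) := by
    unfold x0
    apply ContinuousOn.div_const
    apply Real.continuous_arccos.comp_continuousOn
    apply ContinuousOn.div_const
    unfold kap
    have := xq_cont ρ
    apply ContinuousOn.div
    · fun_prop
    · fun_prop
    · intro h hh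
      exact (den_pos (hxq h hh).1 (hxq h hh).2).ne'
  have cs : ContinuousOn (sfun ρ c) (Set.Icc 0 hm) := by
    unfold sfun
    have k1 := (xq_cont ρ).continuousOn (s := Set.Icc 0 hm)
    have k2 : ContinuousOn (fun h => Real.tanh (π * h)) (Set.Icc 0 hm) := by
      have := tanh_cont
      fun_prop
    apply ContinuousOn.sub
    · fun_prop
    apply ContinuousOn.sub
    · apply Real.continuous_arctan.comp_continuousOn
      apply k2.mul
      apply Real.continuousOn_tan.comp (by fun_prop)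
      intro h hh
      obtain ⟨p1, p2⟩ := hx0 h hh
      exact (cos_pos_half (by linarith only [(hxq h hh).1, hh, hxq, p1, hc, c0]) p2).ne'
    · apply Real.continuous_arctan.comp_continuousOn
      apply k2.mul
      apply Real.continuousOn_tan.comp (by fun_prop)
      intro h hh
      obtain ⟨p1, p2⟩ := hx0 h hh
      exact (cos_pos_half (by linarith only [(hxq h hh).1, hh, hxq, p2]) (by linarith only [(hxq h hh).2, p2, p1])).ne'
  -- strict monotonicity of the arctan part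
  have hJ : ∀ h ∈ Set.Icc 0 hm, 0 < h →
      Real.arctan (Real.tanh (π * h) * Real.tan (π * (xq ρ h - x0 h (xq ρ h)))) <
      Real.arctan (Real.tanh (π * h) * Real.tan (π * (xq ρ h + x0 h (xq ρ h)))) := by
    intro h hh h0
    obtain ⟨p1, p2⟩ := hx0 h hh
    obtain ⟨q1, q2⟩ := hxq h hh
    apply Real.arctan_strictMono
    have ht : 0 < Real.tanh (π * h) := by
      rw [Real.tanh_eq_sinh_div_cosh]
      exact div_pos (Real.sinh_pos_iff.2 (by positivity)) (Real.cosh_pos _)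
    apply mul_lt_mul_of_pos_left _ ht
    apply Real.tan_lt_tan_of_lt_of_lt_pi_div_two
    · nlinarith only [q1, p2, hpi]
    · nlinarith only [p2, hpi]
    · nlinarith only [p1, hpi]
  have hs0 : 0 < sfun ρ c 0 := by
    have hx : xq ρ 0 = 0 := by
      unfold xq kq
      norm_num
    unfold sfun
    rw [hx]
    simp
    positivity
  have hsm : sfun ρ c hm < 0 := by
    have hk : kq ρ hm = 0 := by
      unfold kq
      rw [hm2, sub_self, mul_zero, add_zero, Real.sqrt_sq (by linarith [C_le_M hρ.le hm0.le])]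
      ring
    have hx : xq ρ hm = 1 / 4 := by
      unfold xq
      rw [hk, Real.arccos_zero]
      field_simp
      norm_num
    have h1 := hJ hm ⟨hm0.le, le_rfl⟩ hm0
    unfold sfun
    have h2 : 2 * π * ρ * (c - xq ρ hm) ≤ 0 := by
      rw [hx]
      apply mul_nonpos_of_nonneg_of_nonpos (by positivity) (by linarith)
    linarith
  obtain ⟨h, hh, hz⟩ : (0 : ℝ) ∈ sfun ρ c '' Set.Icc 0 hm :=
    intermediate_value_Icc' hm0.le cs ⟨hsm.le, hs0.le⟩
  have h0 : 0 < h := by
    rcases hh.1.eq_or_lt with h1 | h1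
    · rw [← h1] at hz
      linarith
    · exact h1
  have h1 : h < hm := by
    rcases hh.2.lt_or_eq with h1 | h1
    · exact h1
    · rw [h1] at hz
      linarith
  obtain ⟨p1, p2⟩ := hx0 h hh
  obtain ⟨q1, q2⟩ := hxq h hh
  have hJh := hJ h hh h0
  refine ⟨h, xq ρ h, h0, xq_pos hρ.le h0 (hle h hh), ?_, hlt h h0.le h1,
    xq_s1 hρ.le h0.le (hle h hh), ?_⟩
  · unfold sfun at hz
    have : 0 < 2 * π * ρ * (c - xq ρ h) := by linarith only [hJh, hz]
    have := (pos_iff_pos_of_mul_pos this).1 (by positivity)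
    linarith only [this]
  · rw [int_kernel h0 (by linarith only [p1]) (by linarith only [q1, p2]) p2]
    unfold sfun at hz
    linarith only [hz]

end Pool.Agent.Helper11.TB
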