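import Pool.Agent.Helper9.TB.RDefs
import Pool.Agent.Helper11.Kash.Loba

/-!
# The functions `ee`, `ll`, `win`: basic properties
-/

namespace Pool.Agent.Helper11.TB

open Real MeasureTheory Filter Topology
open Pool.Agent.Helper9.TB
open Pool.Agent.Helper9.Kashaev (HH HH_cont HH_zero integrable_h)
open Pool.Agent.Helper11.Kash (HH_deriv HH_pi_half HH_pi HH_refl)

lemma one_lt_C {h : ℝ} (hh : 0 < h) : 1 < Real.cosh (2 * π * h) := by
  rw [Real.one_lt_cosh]
  positivity

lemma one_le_C (h : ℝ) : 1 ≤ Real.cosh (2 * π * h) := Real.one_le_cosh _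

lemma arg_pos' {h : ℝ} (hh : 0 < h) (u : ℝ) :
    0 < Real.cosh (2 * π * h) + Real.cos (2 * π * u) := by
  have h1 := one_lt_C hh
  have h2 := Real.neg_one_le_cos (2 * π * u)
  linarith

lemma arg_pos {h : ℝ} (hh : 0 < h) (u : ℝ) :
    0 < 2 * (Real.cosh (2 * π * h) + Real.cos (2 * π * u)) := by
  have := arg_pos' hh u
  linarith

theorem ee_neg (h u : ℝ) : ee h (-u) = ee h u := by
  unfold ee
  rw [mul_neg, Real.cos_neg]

theorem ee_add_one (h u : ℝ) : ee h (u + 1) = ee h u := by
  unfold ee
  rw [show 2 * π * (u + 1) = 2 * π * u + 2 * π by ring, Real.cos_add_two_pi]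

theorem ee_periodic (h : ℝ) : Function.Periodic (ee h) 1 := ee_add_one h

theorem ee_cont {h : ℝ} (hh : 0 < h) : Continuous (ee h) := by
  unfold ee
  apply Continuous.div_const
  apply Continuous.log
  · fun_prop
  · exact fun u => (arg_pos hh u).ne'

theorem ee_mono {h h' : ℝ} (hh : 0 < h) (hle : h ≤ h') (u : ℝ) : ee h u ≤ ee h' u := by
  unfold ee
  have h1 : Real.cosh (2 * π * h) ≤ Real.cosh (2 * π * h') := by
    rw [Real.cosh_le_cosh, abs_of_pos (by positivity), abs_of_pos (by
      have := hh.trans_le hle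
      positivity)]
    have := Real.pi_pos
    nlinarith
  have h2 := arg_pos hh u
  have h3 : Real.log (2 * (Real.cosh (2 * π * h) + Real.cos (2 * π * u))) ≤
      Real.log (2 * (Real.cosh (2 * π * h') + Real.cos (2 * π * u))) :=
    Real.log_le_log h2 (by linarith)
  linarith

lemma ee_int {h : ℝ} (hh : 0 < h) (a b : ℝ) : IntervalIntegrable (ee h) volume a b :=
  (ee_cont hh).intervalIntegrable a b

lemma norm_form (h θ : ℝ) : ‖circleMap 0 1 θ - (-(Real.exp (-(2 * π * h)) : ℝ) : ℂ)‖ ^ 2 =
    Real.exp (-(2 * π * h)) * (2 * (Real.cosh (2 * π * h) + Real.cos θ)) := by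
  have e1 : circleMap 0 1 θ - (-(Real.exp (-(2 * π * h)) : ℝ) : ℂ) =
      ((Real.cos θ + Real.exp (-(2 * π * h)) : ℝ) : ℂ) + (Real.sin θ : ℝ) * Complex.I := by
    rw [circleMap, zero_add, Complex.ofReal_one, one_mul, Complex.exp_mul_I]
    push_cast
    ring
  rw [e1, ← Complex.normSq_eq_norm_sq, Complex.normSq_add_mul_I, Real.cosh_eq]
  have e2 : Real.exp (-(2 * π * h)) * Real.exp (2 * π * h) = 1 := by
    rw [← Real.exp_add]; simp
  have e3 := Real.sin_sq_add_cos_sq θ
  linear_combination e3 - e2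

/-- mean value of `ee h` over a period -/
theorem ee_integral {h : ℝ} (hh : 0 < h) : ∫ u in (0 : ℝ)..1, ee h u = π * h := by
  have hpi := Real.pi_pos
  set a : ℂ := -(Real.exp (-(2 * π * h)) : ℝ) with ha
  have hn : ‖a‖ < 1 := by
    rw [ha, norm_neg, Complex.norm_real, Real.norm_of_nonneg (Real.exp_pos _).le,
      Real.exp_lt_one_iff]
    have : 0 < 2 * π * h := by positivity
    linarith
  have h1 := circleAverage_log_norm_sub_const₀ hn
  rw [Real.circleAverage] at h1
  have h2 : ∀ u : ℝ, Real.log ‖circleMap 0 1 (2 * π * u) - a‖ = ee h u - π * h := by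
    intro u
    have h3 := norm_form h (2 * π * u)
    rw [← ha] at h3
    have h4 : Real.log (‖circleMap 0 1 (2 * π * u) - a‖ ^ 2) =
        -(2 * π * h) + Real.log (2 * (Real.cosh (2 * π * h) + Real.cos (2 * π * u))) := by
      rw [h3, Real.log_mul (Real.exp_pos _).ne' (by have := arg_pos' hh u; positivity), Real.log_exp]
    rw [Real.log_pow] at h4
    unfold ee
    push_cast at h4
    linarith
  have h5 : ∫ θ in (0 : ℝ)..2 * π, Real.log ‖circleMap 0 1 θ - a‖ =
      (2 * π) * ∫ u in (0 : ℝ)..1, (ee h u - π * h) := by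
    have := intervalIntegral.integral_comp_mul_left (a := 0) (b := 1)
      (fun θ => Real.log ‖circleMap 0 1 θ - a‖) (c := 2 * π) (by positivity)
    rw [mul_zero, mul_one] at this
    simp_rw [h2] at this
    rw [this, smul_eq_mul]
    field_simp
  have h6 : (2 * π)⁻¹ * ∫ θ in (0 : ℝ)..2 * π, Real.log ‖circleMap 0 1 θ - a‖ = 0 := by
    simpa [smul_eq_mul] using h1
  rw [h5, ← mul_assoc, inv_mul_cancel₀ (by positivity), one_mul,
    intervalIntegral.integral_sub ((ee_cont hh).intervalIntegrable _ _) (by simp)] at h6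
  simp at h6
  linarith

/-! ### the function `ll` -/

lemma ll_eq_HH (t : ℝ) : ll t = HH (π * t) / π := by
  have hpi := Real.pi_pos
  unfold ll HH
  have := intervalIntegral.integral_comp_mul_left (a := 0) (b := t)
    (fun x => Real.log |2 * Real.sin x|) (c := π) (by positivity)
  rw [mul_zero] at this
  rw [smul_eq_mul] at this
  rw [eq_div_iff hpi.ne']
  have h2 : ∫ x in (0 : ℝ)..t, Real.log (2 * Real.sin (π * x)) =
      ∫ x in (0 : ℝ)..t, Real.log |2 * Real.sin (π * x)| := by
    simp only [Real.log_abs]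
  rw [h2, this]
  field_simp

lemma ll_cont : Continuous ll := by
  have e : ll = fun t => HH (π * t) / π := funext ll_eq_HH
  rw [e]
  have := HH_cont
  fun_prop

lemma ll_zero : ll 0 = 0 := by
  unfold ll; simp

lemma ll_half : ll (1 / 2) = 0 := by
  rw [ll_eq_HH, show π * (1 / 2) = π / 2 by ring, HH_pi_half]
  simp

lemma ll_one : ll 1 = 0 := by
  rw [ll_eq_HH, mul_one, HH_pi]
  simp

lemma ll_refl (t : ℝ) : ll (1 - t) = - ll t := by
  rw [ll_eq_HH, ll_eq_HH, show π * (1 - t) = π - π * t by ring, HH_refl]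
  ring

lemma ll_deriv {t : ℝ} (h0 : 0 < t) (h1 : t < 1) :
    HasDerivAt ll (Real.log (2 * Real.sin (π * t))) t := by
  have hpi := Real.pi_pos
  have e : ll = fun t => HH (π * t) / π := funext ll_eq_HH
  rw [e]
  have h2 : HasDerivAt HH (Real.log (2 * Real.sin (π * t))) (π * t) :=
    HH_deriv (by positivity) (by nlinarith)
  have h3 : HasDerivAt (fun t : ℝ => π * t) π t := by
    simpa using (hasDerivAt_id t).const_mul π
  have h4 := (h2.comp t h3).div_const π
  refine h4.congr_deriv ?_
  field_simp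

lemma log_sin_int (a b : ℝ) : IntervalIntegrable (fun x => Real.log (2 * Real.sin (π * x)))
    volume a b := by
  have hpi := Real.pi_pos
  have h1 := (integrable_h (a * π) (b * π)).comp_mul_left (c := π)
  have h2 : IntervalIntegrable (fun x => Real.log |2 * Real.sin (π * x)|) volume a b := by
    convert h1 using 1
    · field_simp
    · field_simp
  simpa only [Real.log_abs] using h2

/-! ### antiderivative of `ee` -/

/-- antiderivative of `ee h` -/
noncomputable def EE (h x : ℝ) : ℝ := ∫ u in (0 : ℝ)..x, ee h u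

lemma EE_deriv {h : ℝ} (hh : 0 < h) (x : ℝ) : HasDerivAt (EE h) (ee h x) x :=
  intervalIntegral.integral_hasDerivAt_right (ee_int hh 0 x)
    ((ee_cont hh).stronglyMeasurableAtFilter _ _) (ee_cont hh).continuousAt

lemma EE_cont {h : ℝ} (hh : 0 < h) : Continuous (EE h) :=
  continuous_iff_continuousAt.2 fun x => (EE_deriv hh x).continuousAt

lemma win_eq {h : ℝ} (hh : 0 < h) (ξ τ : ℝ) : win h ξ τ = EE h (ξ + τ) - EE h (ξ - τ) := by
  unfold win EE
  rw [intervalIntegral.integral_interval_sub_left (ee_int hh _ _) (ee_int hh _ _)]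

lemma win_neg (h ξ τ : ℝ) : win h (-ξ) τ = win h ξ τ := by
  unfold win
  have := intervalIntegral.integral_comp_neg (a := -ξ - τ) (b := -ξ + τ) (fun u => ee h u)
  simp only [ee_neg] at this
  rw [this]
  congr 1 <;> ring

end Pool.Agent.Helper11.TB
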