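import Pool.Agent.Helper11.TB.Win

/-!
# The maximum of the exponent and the quadratic gap
-/

namespace Pool.Agent.Helper11.TB

open Real MeasureTheory Filter Topology
open Pool.Agent.Helper9.TB

lemma cos_nonneg_quarter {ξ : ℝ} (h0 : 0 ≤ ξ) (h1 : ξ ≤ 1 / 4) : 0 ≤ Real.cos (2 * π * ξ) := by
  have hpi := Real.pi_pos
  apply Real.cos_nonneg_of_mem_Icc
  constructor <;> nlinarith only [h0, hpi, h1]

lemma den_pos {h ξ : ℝ} (h0 : 0 ≤ ξ) (h1 : ξ ≤ 1 / 4) :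
    0 < 1 + Real.cos (2 * π * ξ) * Real.cosh (2 * π * h) := by
  have h2 := cos_nonneg_quarter h0 h1
  have h3 := one_le_C h
  have := mul_nonneg h2 (zero_le_one.trans h3)
  linarith only [this]

/-- `kap / 2` is strictly between `-1` and `1` -/
lemma kap_bounds {h ξ : ℝ} (hh : 0 < h) (hC : Real.cosh (2 * π * h) ^ 2 < 2) (h0 : 0 ≤ ξ)
    (h1 : ξ ≤ 1 / 4) : -1 < kap h ξ / 2 ∧ kap h ξ / 2 < 1 := by
  have hd := den_pos (h := h) h0 h1
  have h2 := cos_nonneg_quarter h0 h1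
  have h3 := one_lt_C hh
  have h4 := Real.cos_le_one (2 * π * ξ)
  unfold kap
  constructor
  · rw [lt_div_iff₀ (by norm_num : (0 : ℝ) < 2), lt_div_iff₀ hd]
    nlinarith only [h4, h3, h2, hd, hC]
  · rw [div_lt_iff₀ (by norm_num : (0 : ℝ) < 2), div_lt_iff₀ hd]
    nlinarith only [h4, hd, hC, h3, h2]

lemma cos_x0 {h ξ : ℝ} (hh : 0 < h) (hC : Real.cosh (2 * π * h) ^ 2 < 2) (h0 : 0 ≤ ξ)
    (h1 : ξ ≤ 1 / 4) : Real.cos (2 * π * x0 h ξ) = kap h ξ / 2 := by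
  have hpi := Real.pi_pos
  obtain ⟨b1, b2⟩ := kap_bounds hh hC h0 h1
  unfold x0
  rw [mul_div_cancel₀ _ (by positivity : 2 * π ≠ 0), Real.cos_arccos b1.le b2.le]

lemma x0_mem {h ξ : ℝ} (hh : 0 < h) (hC : Real.cosh (2 * π * h) ^ 2 < 2) (h0 : 0 ≤ ξ)
    (h1 : ξ ≤ 1 / 4) : 0 < x0 h ξ ∧ x0 h ξ < 1 / 2 := by
  have hpi := Real.pi_pos
  obtain ⟨b1, b2⟩ := kap_bounds hh hC h0 h1
  unfold x0
  constructor
  · exact div_pos (Real.arccos_pos.2 b2) (by positivity)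
  · rw [div_lt_iff₀ (by positivity)]
    have : Real.arccos (kap h ξ / 2) < π := by
      rw [← Real.arccos_neg_one]
      exact (Real.arccos_lt_arccos (by norm_num) b1 b2.le)
    linarith only [this]

lemma phi_x0 {h ξ : ℝ} (hh : 0 < h) (hC : Real.cosh (2 * π * h) ^ 2 < 2) (h0 : 0 ≤ ξ)
    (h1 : ξ ≤ 1 / 4) : phi h ξ (Real.cos (2 * π * x0 h ξ)) = 0 := by
  rw [cos_x0 hh hC h0 h1]
  have hd := den_pos (h := h) h0 h1
  unfold phi kap
  field_simp
  ring

lemma KK_eq (ρ c h ξ τ : ℝ) : KK ρ c h ξ τ = 2 * π * ρ * (ξ - c) * h - (2 * ll τ - win h ξ τ) := by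
  unfold KK; ring

/-- for fixed `ξ` the maximum over `τ` is at `x0` -/
lemma KK_le_x0 {ρ c h ξ τ : ℝ} (hh : 0 < h) (hC : Real.cosh (2 * π * h) ^ 2 < 2) (h0 : 0 ≤ ξ)
    (h1 : ξ ≤ 1 / 4) (t0 : 0 ≤ τ) (t1 : τ ≤ 1 / 2) : KK ρ c h ξ τ ≤ KK ρ c h ξ (x0 h ξ) := by
  obtain ⟨m0, m1⟩ := x0_mem hh hC h0 h1
  have hp := phi_x0 hh hC h0 h1
  have hd := den_pos (h := h) h0 h1
  rw [KK_eq, KK_eq]
  suffices 2 * ll (x0 h ξ) - win h ξ (x0 h ξ) ≤ 2 * ll τ - win h ξ τ by linarith only [this]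
  rcases le_total τ (x0 h ξ) with hle | hle
  · have hanti : AntitoneOn (fun α => 2 * ll α - win h ξ α) (Set.Icc 0 (x0 h ξ)) := by
      apply antitoneOn_of_deriv_nonpos (convex_Icc _ _) (Fcont hh ξ).continuousOn
      · intro x hx
        rw [interior_Icc] at hx
        exact (Fderiv hh ξ hx.1 (by linarith only [hx.2, hx, m1, m0])).differentiableAt.differentiableWithinAt
      · intro x hx
        rw [interior_Icc] at hx
        rw [(Fderiv hh ξ hx.1 (by linarith only [hx.2, hx, m1, m0])).deriv]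
        apply ff_nonpos hh hx.1 (by linarith only [hx.2, hx, m1, m0])
        have t1 := cos_anti hx.1.le hx.2.le m1.le
        unfold phi at *
        nlinarith only [mul_nonneg hd.le (sub_nonneg.2 t1), t1, hd, hp]
    exact hanti ⟨t0, hle⟩ ⟨m0.le, le_rfl⟩ hle
  · have hmono : MonotoneOn (fun α => 2 * ll α - win h ξ α) (Set.Icc (x0 h ξ) (1 / 2)) := by
      apply monotoneOn_of_deriv_nonneg (convex_Icc _ _) (Fcont hh ξ).continuousOn
      · intro x hx
        rw [interior_Icc] at hx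
        exact (Fderiv hh ξ (m0.trans hx.1)
          (by linarith only [hx.2, hx, m1, m0])).differentiableAt.differentiableWithinAt
      · intro x hx
        rw [interior_Icc] at hx
        rw [(Fderiv hh ξ (m0.trans hx.1) (by linarith only [hx.2, hx, m1, m0])).deriv]
        apply ff_nonneg hh (m0.trans hx.1) (by linarith only [hx.2, hx, m1, m0])
        have t1 := cos_anti m0.le hx.1.le hx.2.le
        unfold phi at *
        nlinarith only [mul_nonneg hd.le (sub_nonneg.2 t1), t1, hd, hp]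
    exact hmono ⟨le_rfl, m1.le⟩ ⟨hle, t1⟩ hle

lemma ff_x0 {h ξ : ℝ} (hh : 0 < h) (hC : Real.cosh (2 * π * h) ^ 2 < 2) (h0 : 0 ≤ ξ)
    (h1 : ξ ≤ 1 / 4) : ff h ξ (x0 h ξ) = 0 := by
  obtain ⟨m0, m1⟩ := x0_mem hh hC h0 h1
  have hp := phi_x0 hh hC h0 h1
  exact le_antisymm (ff_nonpos hh m0 (by linarith only [m1, m0]) hp.le) (ff_nonneg hh m0 (by linarith only [m1, m0]) hp.ge)

lemma x0_diff {h ξ : ℝ} (hh : 0 < h) (hC : Real.cosh (2 * π * h) ^ 2 < 2) (h0 : 0 ≤ ξ)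
    (h1 : ξ ≤ 1 / 4) : DifferentiableAt ℝ (x0 h) ξ := by
  obtain ⟨b1, b2⟩ := kap_bounds hh hC h0 h1
  have hd := den_pos (h := h) h0 h1
  unfold x0
  apply DifferentiableAt.div_const
  apply DifferentiableAt.comp (g := Real.arccos) (f := fun ξ => kap h ξ / 2)
  · exact Real.differentiableAt_arccos.2 ⟨b1.ne', b2.ne⟩
  · unfold kap
    have := hd.ne'
    fun_prop (disch := assumption)

/-- the gap function -/
noncomputable def GG1 (h ξ : ℝ) : ℝ := ee h (ξ - x0 h ξ) - ee h (ξ + x0 h ξ)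

/-- envelope theorem -/
lemma H_deriv {ρ c h ξ : ℝ} (hh : 0 < h) (hC : Real.cosh (2 * π * h) ^ 2 < 2) (h0 : 0 ≤ ξ)
    (h1 : ξ ≤ 1 / 4) : HasDerivAt (fun ξ => KK ρ c h ξ (x0 h ξ)) (2 * π * ρ * h - GG1 h ξ) ξ := by
  obtain ⟨m0, m1⟩ := x0_mem hh hC h0 h1
  have hx := (x0_diff hh hC h0 h1).hasDerivAt
  set d := deriv (x0 h) ξ with hd
  have e : (fun ξ => KK ρ c h ξ (x0 h ξ)) = fun ξ => 2 * π * ρ * (ξ - c) * h - 2 * ll (x0 h ξ) +
      (EE h (ξ + x0 h ξ) - EE h (ξ - x0 h ξ)) := by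
    funext ξ
    unfold KK
    rw [win_eq hh]
  rw [e]
  have d1 : HasDerivAt (fun ξ : ℝ => 2 * π * ρ * (ξ - c) * h) (2 * π * ρ * h) ξ := by
    have := (((hasDerivAt_id ξ).sub_const c).const_mul (2 * π * ρ)).mul_const h
    simpa using this
  have d2 : HasDerivAt (fun ξ => 2 * ll (x0 h ξ)) (2 * (Real.log (2 * Real.sin (π * x0 h ξ)) * d)) ξ :=
    ((ll_deriv m0 (by linarith only [m1, m0])).comp ξ hx).const_mul 2
  have d3' : HasDerivAt (fun ξ => ξ + x0 h ξ) (1 + d) ξ := (hasDerivAt_id ξ).add hx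
  have d4' : HasDerivAt (fun ξ => ξ - x0 h ξ) (1 - d) ξ := (hasDerivAt_id ξ).sub hx
  have d3 : HasDerivAt (fun ξ => EE h (ξ + x0 h ξ)) (ee h (ξ + x0 h ξ) * (1 + d)) ξ :=
    HasDerivAt.comp (h₂ := EE h) ξ (EE_deriv hh (ξ + x0 h ξ)) d3'
  have d4 : HasDerivAt (fun ξ => EE h (ξ - x0 h ξ)) (ee h (ξ - x0 h ξ) * (1 - d)) ξ :=
    HasDerivAt.comp (h₂ := EE h) ξ (EE_deriv hh (ξ - x0 h ξ)) d4'
  refine ((d1.sub d2).add (d3.sub d4)).congr_deriv ?_
  have hf := ff_x0 hh hC h0 h1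
  unfold ff at hf
  unfold GG1
  linear_combination (-d) * hf

lemma GG1_nonneg {h ξ : ℝ} (hh : 0 < h) (hC : Real.cosh (2 * π * h) ^ 2 < 2) (h0 : 0 ≤ ξ)
    (h1 : ξ ≤ 1 / 4) : 0 ≤ GG1 h ξ := by
  obtain ⟨m0, m1⟩ := x0_mem hh hC h0 h1
  have := ee_shift_le hh h0 (by linarith only [m1, m0, h1]) m0.le m1.le
  unfold GG1
  linarith only [this]

lemma cosh_half_log {P M s : ℝ} (hP : 0 < P) (hM : 0 < M) (hs : 0 < s) (hs2 : s ^ 2 = P * M) :
    Real.cosh (Real.log P / 2 - Real.log M / 2) = (P + M) / (2 * s) := by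
  have e1 : s = Real.exp (Real.log P / 2) * Real.exp (Real.log M / 2) := by
    have h1 : s ^ 2 = (Real.exp (Real.log P / 2) * Real.exp (Real.log M / 2)) ^ 2 := by
      rw [hs2, mul_pow, ← Real.exp_nat_mul, ← Real.exp_nat_mul]
      push_cast
      rw [mul_div_cancel₀ _ (by norm_num : (2 : ℝ) ≠ 0), mul_div_cancel₀ _ (by norm_num : (2 : ℝ) ≠ 0),
        Real.exp_log hP, Real.exp_log hM]
    exact (pow_left_inj₀ hs.le (by positivity) (by norm_num)).1 h1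
  have e2 : P = Real.exp (Real.log P / 2) ^ 2 := by
    rw [← Real.exp_nat_mul]
    push_cast
    rw [mul_div_cancel₀ _ (by norm_num : (2 : ℝ) ≠ 0), Real.exp_log hP]
  have e3 : M = Real.exp (Real.log M / 2) ^ 2 := by
    rw [← Real.exp_nat_mul]
    push_cast
    rw [mul_div_cancel₀ _ (by norm_num : (2 : ℝ) ≠ 0), Real.exp_log hM]
  rw [Real.cosh_eq, Real.exp_sub, show -(Real.log P / 2 - Real.log M / 2) =
    Real.log M / 2 - Real.log P / 2 by ring, Real.exp_sub, e1]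
  set u := Real.exp (Real.log P / 2) with hu
  set v := Real.exp (Real.log M / 2) with hv
  have up : 0 < u := Real.exp_pos _
  have vp : 0 < v := Real.exp_pos _
  rw [e2, e3]
  field_simp

lemma cosh_GG1 {h ξ : ℝ} (hh : 0 < h) (hC : Real.cosh (2 * π * h) ^ 2 < 2) (h0 : 0 ≤ ξ)
    (h1 : ξ ≤ 1 / 4) : Real.cosh (GG1 h ξ) = WW h ξ := by
  obtain ⟨m0, m1⟩ := x0_mem hh hC h0 h1
  have p1 := arg_pos' hh (ξ + x0 h ξ)
  have p2 := arg_pos' hh (ξ - x0 h ξ)
  have h3 := cos_lt_one m0 (by linarith only [m1, m0])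
  have hp := phi_x0 hh hC h0 h1
  have hpr := prod_form h ξ (x0 h ξ)
  rw [hp] at hpr
  have e1 : GG1 h ξ = Real.log (Real.cosh (2 * π * h) + Real.cos (2 * π * (ξ - x0 h ξ))) / 2 -
      Real.log (Real.cosh (2 * π * h) + Real.cos (2 * π * (ξ + x0 h ξ))) / 2 := by
    unfold GG1 ee
    rw [Real.log_mul (by norm_num : (2 : ℝ) ≠ 0) p1.ne',
      Real.log_mul (by norm_num : (2 : ℝ) ≠ 0) p2.ne']
    ring
  rw [e1, cosh_half_log p2 p1 (s := 1 - Real.cos (2 * π * x0 h ξ)) (by linarith only [h3]) (by linarith only [hpr])]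
  have e2 : Real.cos (2 * π * (ξ - x0 h ξ)) + Real.cos (2 * π * (ξ + x0 h ξ)) =
      2 * Real.cos (2 * π * ξ) * Real.cos (2 * π * x0 h ξ) := by
    rw [mul_sub, mul_add, Real.cos_sub, Real.cos_add]
    ring
  have hd := den_pos (h := h) h0 h1
  have hs := arg_pos' hh ξ
  have e3 := cos_x0 hh hC h0 h1
  have h5 : 1 - kap h ξ / 2 ≠ 0 := by
    rw [← e3]
    linarith only [h3]
  rw [show Real.cosh (2 * π * h) + Real.cos (2 * π * (ξ - x0 h ξ)) + (Real.cosh (2 * π * h) +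
    Real.cos (2 * π * (ξ + x0 h ξ))) = 2 * Real.cosh (2 * π * h) +
    2 * Real.cos (2 * π * ξ) * Real.cos (2 * π * x0 h ξ) by rw [← e2]; ring, e3]
  have hk : kap h ξ * (1 + Real.cos (2 * π * ξ) * Real.cosh (2 * π * h)) =
      2 - Real.cos (2 * π * ξ) ^ 2 - Real.cosh (2 * π * h) ^ 2 := by
    unfold kap
    rw [div_mul_cancel₀ _ hd.ne']
  unfold WW
  rw [div_eq_div_iff (mul_ne_zero two_ne_zero h5) hs.ne']
  linear_combination 2 * hk

lemma WW_le {h ξ : ℝ} (hh : 0 < h) (hC : Real.cosh (2 * π * h) ^ 2 < 2) (h0 : 0 ≤ ξ)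
    (h1 : ξ ≤ 1 / 4) : WW h ξ ≤ 3 := by
  have h2 := cos_nonneg_quarter h0 h1
  have h3 := one_lt_C hh
  unfold WW
  rw [div_le_iff₀ (by linarith only [h3, h2])]
  nlinarith only [h3, h2, hC]

/-- `WW` is strictly increasing -/
lemma WW_diff {h a b : ℝ} (hh : 0 < h) (hC : Real.cosh (2 * π * h) ^ 2 < 2) (h0 : 0 ≤ a)
    (hab : a ≤ b) (h1 : b ≤ 1 / 4) :
    (2 - Real.cosh (2 * π * h) ^ 2) / (Real.cosh (2 * π * h) + 1) ^ 2 *
      (Real.cos (2 * π * a) - Real.cos (2 * π * b)) ≤ WW h b - WW h a := by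
  have c1 := cos_nonneg_quarter h0 (hab.trans h1)
  have c2 := cos_nonneg_quarter (h0.trans hab) h1
  have c3 := Real.cos_le_one (2 * π * a)
  have c4 := Real.cos_le_one (2 * π * b)
  have c5 := cos_anti h0 hab (by linarith only [h1])
  have h3 := one_lt_C hh
  set C := Real.cosh (2 * π * h) with hCd
  set x := Real.cos (2 * π * a) with hx
  set y := Real.cos (2 * π * b) with hy
  have e : WW h b - WW h a = (x - y) * (2 - C ^ 2 + C * (x + y) + x * y) / ((C + x) * (C + y)) := by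
    unfold WW
    rw [← hx, ← hy, ← hCd]
    have e1 : C + x ≠ 0 := by positivity
    have e2 : C + y ≠ 0 := by positivity
    field_simp
    ring
  rw [e, div_mul_eq_mul_div, div_le_div_iff₀ (by positivity) (by positivity)]
  have q1 : 0 ≤ (2 - C ^ 2) * (x - y) := mul_nonneg (by linarith only [hC]) (by linarith only [c5])
  have q2 : (C + x) * (C + y) ≤ (C + 1) ^ 2 := by nlinarith only [c1, h3, c4, c3]
  have q3 : (2 - C ^ 2) * (x - y) ≤ (x - y) * (2 - C ^ 2 + C * (x + y) + x * y) := by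
    have : 0 ≤ (x - y) * (C * (x + y) + x * y) := by
      have : 0 ≤ x - y := by linarith
      positivity
    linarith
  calc (2 - C ^ 2) * (x - y) * ((C + x) * (C + y)) ≤ (2 - C ^ 2) * (x - y) * (C + 1) ^ 2 :=
        mul_le_mul_of_nonneg_left q2 q1
    _ ≤ _ := mul_le_mul_of_nonneg_right q3 (by positivity)

lemma cos_gap {a b : ℝ} (h0 : 0 ≤ a) (hab : a ≤ b) (h1 : b ≤ 1 / 4) {x : ℝ} (hx : 0 ≤ x)
    (hx1 : x ≤ a + b) : 4 * Real.sin (π * x) * (b - a) ≤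
      Real.cos (2 * π * a) - Real.cos (2 * π * b) := by
  have hpi := Real.pi_pos
  have e : Real.cos (2 * π * a) - Real.cos (2 * π * b) =
      2 * Real.sin (π * (a + b)) * Real.sin (π * (b - a)) := by
    rw [Real.cos_sub_cos, show (2 * π * a + 2 * π * b) / 2 = π * (a + b) by ring,
      show (2 * π * a - 2 * π * b) / 2 = -(π * (b - a)) by ring, Real.sin_neg]
    ring
  rw [e]
  have s1 : Real.sin (π * x) ≤ Real.sin (π * (a + b)) := by
    apply Real.sin_le_sin_of_le_of_le_pi_div_two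
    · nlinarith only [hx, hpi]
    · nlinarith only [h1, hpi, hab]
    · nlinarith only [hpi, hx1]
  have s2 : 2 * (b - a) ≤ Real.sin (π * (b - a)) := by
    have := Real.mul_le_sin (x := π * (b - a)) (by
      have : 0 ≤ b - a := by linarith
      positivity) (by nlinarith only [h1, h0, hpi])
    calc 2 * (b - a) = 2 / π * (π * (b - a)) := by field_simp
      _ ≤ _ := this
  have s3 : 0 ≤ Real.sin (π * x) := Real.sin_nonneg_of_nonneg_of_le_pi (by positivity)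
    (by nlinarith only [hx1, h1, hab, hpi])
  have s4 : 0 ≤ b - a := by linarith
  nlinarith only [mul_le_mul s1 s2 (by linarith) (s3.trans s1), s3, hab, s2, s1]

lemma cosh_sub_le {a b : ℝ} (ha : 0 ≤ a) (hab : a ≤ b) :
    Real.cosh b - Real.cosh a ≤ Real.cosh b * (b - a) := by
  have hb : 0 ≤ b := ha.trans hab
  rcases hab.eq_or_lt with rfl | hab
  · simp
  obtain ⟨c, hc, hslope⟩ := exists_hasDerivAt_eq_slope Real.cosh Real.sinh hab
    Real.continuous_cosh.continuousOn (fun x _ => Real.hasDerivAt_cosh x)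
  have h1 : Real.sinh c ≤ Real.cosh b := by
    have h2 : Real.sinh c ≤ Real.sinh b := Real.sinh_le_sinh.2 hc.2.le
    have h3 : Real.sinh b ≤ Real.cosh b := (Real.sinh_lt_cosh b).le
    linarith
  rw [eq_div_iff (by linarith)] at hslope
  nlinarith only [mul_le_mul_of_nonneg_right h1 (sub_nonneg.2 hab.le), hab, h1, hslope]

lemma le_of_cosh {a b : ℝ} (ha : 0 ≤ a) (hb : 0 ≤ b) (h : Real.cosh a ≤ Real.cosh b) : a ≤ b := by
  rwa [Real.cosh_le_cosh, abs_of_nonneg ha, abs_of_nonneg hb] at h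

end Pool.Agent.Helper11.TB
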