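import Pool.Agent.Helper11.TB.Gap

/-!
# The saddle: quadratic gap and lower bound of the maximum
-/

namespace Pool.Agent.Helper11.TB

open Real MeasureTheory Filter Topology
open Pool.Agent.Helper9.TB

lemma saddle_C {ρ c h ξ : ℝ} (hρ : 1 ≤ ρ) (S : Saddle ρ c h ξ) :
    Real.cosh (2 * π * h) ^ 2 < 2 := by
  have h1 := S.small
  have hh := S.hpos
  have hpi := Real.pi_pos
  have h2 : Real.cosh (2 * π * h) ≤ Real.cosh (2 * π * ρ * h) := by
    rw [Real.cosh_le_cosh, abs_of_pos (by positivity), abs_of_pos (by positivity)]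
    have : 0 ≤ (ρ - 1) * (2 * π * h) := mul_nonneg (by linarith) (by positivity)
    linarith
  have h3 := one_le_C h
  nlinarith only [h3, h2, h1]

theorem saddle_x0 {ρ c h ξ : ℝ} (hρ : 1 ≤ ρ) (hc : c ≤ 1 / 4) (S : Saddle ρ c h ξ) :
    0 < x0 h ξ ∧ x0 h ξ < 1 / 2 :=
  x0_mem S.hpos (saddle_C hρ S) S.xpos.le (by linarith only [S.xlt, S, hc])

/-- (B1), on the whole interval `[0, 1/4]` -/
theorem KK_gap_quarter {ρ c h ξ0 : ℝ} (hρ : 1 ≤ ρ) (hc : c ≤ 1 / 4) (S : Saddle ρ c h ξ0) :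
    ∃ m > 0, ∀ ξ ∈ Set.Icc (0 : ℝ) (1 / 4), ∀ τ ∈ Set.Icc (0 : ℝ) (1 / 2),
      KK ρ c h ξ τ ≤ KK ρ c h ξ0 (x0 h ξ0) - m * (ξ - ξ0) ^ 2 := by
  have hh := S.hpos
  have hC := saddle_C hρ S
  have hpi := Real.pi_pos
  have hx0 := S.xpos
  have hx1 := S.xlt
  have hC1 := one_lt_C hh
  set C := Real.cosh (2 * π * h) with hCd
  set κ := (2 - C ^ 2) / (C + 1) ^ 2 * (4 * Real.sin (π * ξ0)) with hκ
  have hsin : 0 < Real.sin (π * ξ0) := Real.sin_pos_of_pos_of_lt_pi (by positivity) (by nlinarith only [hx1, hc, hpi])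
  have hκp : 0 < κ := by
    have : 0 < 2 - C ^ 2 := by linarith only [hC]
    positivity
  have hb : 0 ≤ 2 * π * ρ * h := by positivity
  refine ⟨κ / 6, by positivity, ?_⟩
  have key : KK ρ c h ξ0 (x0 h ξ0) = KK ρ c h ξ0 (x0 h ξ0) := rfl
  -- slopes
  have slope1 : ∀ ξ, 0 ≤ ξ → ξ ≤ ξ0 → κ / 3 * (ξ0 - ξ) ≤ 2 * π * ρ * h - GG1 h ξ := by
    intro ξ h0 h1
    have hq : ξ ≤ 1 / 4 := by linarith only [h1, hx1, hc]
    have w1 := WW_diff hh hC h0 h1 (by linarith only [hx1, hc])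
    have w2 := cos_gap h0 h1 (by linarith only [hx1, hc]) hx0.le (by linarith only [h0])
    have w3 := WW_le hh hC hx0.le (by linarith : ξ0 ≤ 1 / 4)
    rw [← S.s1] at w1 w3
    rw [← cosh_GG1 hh hC h0 hq] at w1
    have w4 : κ * (ξ0 - ξ) ≤ Real.cosh (2 * π * ρ * h) - Real.cosh (GG1 h ξ) := by
      refine le_trans ?_ w1
      rw [hκ, mul_assoc]
      apply mul_le_mul_of_nonneg_left w2
      have : 0 < 2 - C ^ 2 := by linarith only [hC]
      positivity
    have w5 : 0 ≤ κ * (ξ0 - ξ) := mul_nonneg hκp.le (by linarith)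
    have w6 := GG1_nonneg hh hC h0 hq
    have w7 := le_of_cosh w6 hb (by linarith)
    have w8 := cosh_sub_le w6 w7
    have w9 : Real.cosh (2 * π * ρ * h) * (2 * π * ρ * h - GG1 h ξ) ≤
        3 * (2 * π * ρ * h - GG1 h ξ) := mul_le_mul_of_nonneg_right w3 (by linarith only [w7])
    linarith only [w9, w8, w4]
  have slope2 : ∀ ξ, ξ0 ≤ ξ → ξ ≤ 1 / 4 → κ / 3 * (ξ - ξ0) ≤ GG1 h ξ - 2 * π * ρ * h := by
    intro ξ h0 hq
    have hq0 : 0 ≤ ξ := by linarith
    have w1 := WW_diff hh hC hx0.le h0 (by linarith)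
    have w2 := cos_gap hx0.le h0 hq hx0.le (by linarith)
    have w3 := WW_le hh hC hq0 hq
    rw [← S.s1, ← cosh_GG1 hh hC hq0 hq] at w1
    rw [← cosh_GG1 hh hC hq0 hq] at w3
    have w4 : κ * (ξ - ξ0) ≤ Real.cosh (GG1 h ξ) - Real.cosh (2 * π * ρ * h) := by
      refine le_trans ?_ w1
      rw [hκ, mul_assoc]
      apply mul_le_mul_of_nonneg_left w2
      have : 0 < 2 - C ^ 2 := by linarith
      positivity
    have w5 : 0 ≤ κ * (ξ - ξ0) := mul_nonneg hκp.le (by linarith)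
    have w6 := GG1_nonneg hh hC hq0 hq
    have w7 := le_of_cosh hb w6 (by linarith only [w5, w4])
    have w8 := cosh_sub_le hb w7
    have w9 : Real.cosh (GG1 h ξ) * (GG1 h ξ - 2 * π * ρ * h) ≤
        3 * (GG1 h ξ - 2 * π * ρ * h) := mul_le_mul_of_nonneg_right w3 (by linarith)
    linarith only [w9, w8, w4]
  have dφ : ∀ ξ, 0 ≤ ξ → ξ ≤ 1 / 4 → HasDerivAt
      (fun ξ => KK ρ c h ξ (x0 h ξ) + κ / 6 * (ξ - ξ0) ^ 2)
      (2 * π * ρ * h - GG1 h ξ + κ / 3 * (ξ - ξ0)) ξ := by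
    intro ξ h0 h1
    have d2 : HasDerivAt (fun ξ : ℝ => κ / 6 * (ξ - ξ0) ^ 2) (κ / 3 * (ξ - ξ0)) ξ := by
      have := (((hasDerivAt_id ξ).sub_const ξ0).pow 2).const_mul (κ / 6)
      refine this.congr_deriv ?_
      simp
      ring
    exact (H_deriv hh hC h0 h1).add d2
  have hmono : MonotoneOn (fun ξ => KK ρ c h ξ (x0 h ξ) + κ / 6 * (ξ - ξ0) ^ 2) (Set.Icc 0 ξ0) := by
    apply monotoneOn_of_deriv_nonneg (convex_Icc _ _)
    · exact fun x hx => (dφ x hx.1 (by linarith [hx.2])).continuousAt.continuousWithinAt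
    · intro x hx
      rw [interior_Icc] at hx
      exact (dφ x hx.1.le (by linarith [hx.2])).differentiableAt.differentiableWithinAt
    · intro x hx
      rw [interior_Icc] at hx
      rw [(dφ x hx.1.le (by linarith [hx.2])).deriv]
      have := slope1 x hx.1.le hx.2.le
      linarith only [this]
  have hanti : AntitoneOn (fun ξ => KK ρ c h ξ (x0 h ξ) + κ / 6 * (ξ - ξ0) ^ 2) (Set.Icc ξ0 (1 / 4)) := by
    apply antitoneOn_of_deriv_nonpos (convex_Icc _ _)
    · exact fun x hx => (dφ x (by linarith [hx.1]) (by linarith [hx.2])).continuousAt.continuousWithinAt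
    · intro x hx
      rw [interior_Icc] at hx
      exact (dφ x (by linarith [hx.1]) (by linarith only [hx.2, hx])).differentiableAt.differentiableWithinAt
    · intro x hx
      rw [interior_Icc] at hx
      rw [(dφ x (by linarith [hx.1]) (by linarith [hx.2])).deriv]
      have := slope2 x hx.1.le hx.2.le
      linarith only [this]
  intro ξ hξ τ hτ
  have m1 := KK_le_x0 (ρ := ρ) (c := c) hh hC hξ.1 (by linarith [hξ.2]) hτ.1 hτ.2
  rcases le_total ξ ξ0 with hle | hle
  · have := hmono ⟨hξ.1, hle⟩ ⟨hx0.le, le_rfl⟩ hle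
    simp only [sub_self] at this
    linarith only [this, m1]
  · have := hanti ⟨le_rfl, by linarith⟩ ⟨hle, hξ.2⟩ hle
    simp only [sub_self] at this
    linarith only [this, m1]

/-- (B1) -/
theorem KK_gap {ρ c h ξ0 : ℝ} (hρ : 1 ≤ ρ) (hc : c ≤ 1 / 4) (S : Saddle ρ c h ξ0) :
    ∃ m > 0, ∀ ξ ∈ Set.Icc 0 c, ∀ τ ∈ Set.Icc (0 : ℝ) (1 / 2),
      KK ρ c h ξ τ ≤ KK ρ c h ξ0 (x0 h ξ0) - m * (ξ - ξ0) ^ 2 := by
  obtain ⟨m, hm, H⟩ := KK_gap_quarter hρ hc S
  exact ⟨m, hm, fun ξ hξ => H ξ ⟨hξ.1, by linarith only [hξ.2, hξ, hc]⟩⟩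

/-! ### (B7) -/

lemma ee_ge_log_cos {h : ℝ} (hh : 0 < h) {u : ℝ} (h0 : 0 < u) (h1 : u < 1 / 2) :
    Real.log (2 * Real.sin (π * (1 / 2 - u))) ≤ ee h u := by
  have hpi := Real.pi_pos
  have hc : 0 < Real.cos (π * u) := by
    apply Real.cos_pos_of_mem_Ioo
    constructor <;> nlinarith only [h0, hpi, h1]
  rw [show π * (1 / 2 - u) = π / 2 - π * u by ring, Real.sin_pi_div_two_sub]
  unfold ee
  have e : 2 * Real.log (2 * Real.cos (π * u)) = Real.log (2 * (1 + Real.cos (2 * π * u))) := by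
    rw [show 2 * π * u = 2 * (π * u) by ring, Real.cos_two_mul,
      show 2 * (1 + (2 * Real.cos (π * u) ^ 2 - 1)) = (2 * Real.cos (π * u)) ^ 2 by ring,
      Real.log_pow]
    norm_num
  have h2 := one_lt_C hh
  have h3 : 0 < 1 + Real.cos (2 * π * u) := by
    rw [show 2 * π * u = 2 * (π * u) by ring, Real.cos_two_mul]
    nlinarith only [hc]
  have h4 : Real.log (2 * (1 + Real.cos (2 * π * u))) ≤
      Real.log (2 * (Real.cosh (2 * π * h) + Real.cos (2 * π * u))) :=
    Real.log_le_log (by positivity) (by linarith)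
  linarith only [h4, e]

/-- duplication formula -/
lemma ll_dup : ll (5 / 12) - ll (1 / 12) = - ll (1 / 6) / 2 := by
  have hpi := Real.pi_pos
  -- `ll (1/6) = 2 ∫_0^{1/12} log (2 sin 2πx) dx = 2 (ll (1/12) + ∫_0^{1/12} log (2 cos π x))`
  have h1 : ll (1 / 6) = 2 * ∫ x in (0 : ℝ)..(1 / 12), Real.log (2 * Real.sin (π * (2 * x))) := by
    rw [intervalIntegral.integral_comp_mul_left (fun x => Real.log (2 * Real.sin (π * x)))
      (by norm_num : (2 : ℝ) ≠ 0), smul_eq_mul]
    unfold ll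
    rw [mul_zero, show (2 : ℝ) * (1 / 12) = 1 / 6 by norm_num]
    ring
  have h2 : ∫ x in (0 : ℝ)..(1 / 12), Real.log (2 * Real.sin (π * (2 * x))) =
      ∫ x in (0 : ℝ)..(1 / 12), (Real.log (2 * Real.sin (π * x)) +
        Real.log (2 * Real.sin (π * (x + 1 / 2)))) := by
    apply intervalIntegral.integral_congr_ae
    refine Eventually.of_forall fun t hm => ?_
    rw [Set.uIoc_of_le (by positivity)] at hm
    have hs : 0 < Real.sin (π * t) := Real.sin_pos_of_pos_of_lt_pi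
      (mul_pos hpi hm.1) (by nlinarith only [hm.2, hm, hpi])
    have hc : 0 < Real.cos (π * t) := Real.cos_pos_of_mem_Ioo
      ⟨by nlinarith only [hm.1, mul_pos hpi hm.1, hm, hpi], by nlinarith only [hm.2, hm, hpi]⟩
    rw [show π * (t + 1 / 2) = π * t + π / 2 by ring, Real.sin_add_pi_div_two,
      ← Real.log_mul (by positivity) (by positivity), show π * (2 * t) = 2 * (π * t) by ring,
      Real.sin_two_mul]
    congr 1; ring
  have hint : IntervalIntegrable (fun x => Real.log (2 * Real.sin (π * (x + 1 / 2)))) volume 0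
      (1 / 12) := by
    have := (log_sin_int (0 + 1 / 2) (1 / 12 + 1 / 2)).comp_add_right (1 / 2)
    simpa using this
  have h3 : ∫ x in (0 : ℝ)..(1 / 12), Real.log (2 * Real.sin (π * (x + 1 / 2))) =
      ll (1 - 5 / 12) - ll (1 / 2) := by
    rw [intervalIntegral.integral_comp_add_right (fun x => Real.log (2 * Real.sin (π * x)))]
    unfold ll
    rw [zero_add, intervalIntegral.integral_interval_sub_left (log_sin_int _ _)
      (log_sin_int _ _)]
    norm_num
  rw [h2, intervalIntegral.integral_add (log_sin_int _ _) hint, h3, ll_half, ll_refl] at h1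
  have h5 : ll (1 / 12) = ∫ x in (0 : ℝ)..(1 / 12), Real.log (2 * Real.sin (π * x)) := rfl
  rw [← h5] at h1
  linarith only [h1]

/-- `- ll (1/6) ≥ (1 - log (π/3)) / 6` -/
lemma ll_sixth : ll (1 / 6) ≤ -(1 / 6) * (1 - Real.log (π / 3)) := by
  have hpi := Real.pi_pos
  have hanti : AntitoneOn (fun t => ll t - (t * Real.log t + t * (Real.log (2 * π) - 1)))
      (Set.Icc 0 (1 / 6)) := by
    have hd : ∀ x ∈ Set.Ioo (0 : ℝ) (1 / 6), HasDerivAt
        (fun t => ll t - (t * Real.log t + t * (Real.log (2 * π) - 1)))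
        (Real.log (2 * Real.sin (π * x)) - (Real.log x + 1 + (Real.log (2 * π) - 1))) x := by
      intro x hx
      have h1 := ll_deriv hx.1 (by linarith [hx.2] : x < 1)
      have h2 := Real.hasDerivAt_mul_log hx.1.ne'
      have h3 : HasDerivAt (fun t : ℝ => t * (Real.log (2 * π) - 1)) (Real.log (2 * π) - 1) x := by
        simpa using (hasDerivAt_id x).mul_const (Real.log (2 * π) - 1)
      exact h1.sub (h2.add h3)
    apply antitoneOn_of_deriv_nonpos (convex_Icc _ _)
    · apply Continuous.continuousOn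
      have h1 := ll_cont
      have h2 := Real.continuous_mul_log
      fun_prop
    · intro x hx
      rw [interior_Icc] at hx
      exact (hd x hx).differentiableAt.differentiableWithinAt
    · intro x hx
      rw [interior_Icc] at hx
      rw [(hd x hx).deriv]
      have hs : 0 < Real.sin (π * x) := Real.sin_pos_of_pos_of_lt_pi (mul_pos hpi hx.1)
        (by nlinarith only [hx.2, hx, hpi])
      have h1 : Real.sin (π * x) ≤ π * x := Real.sin_le (mul_pos hpi hx.1).le
      have h2 : Real.log (2 * Real.sin (π * x)) ≤ Real.log (x * (2 * π)) :=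
        Real.log_le_log (by positivity) (by linarith)
      rw [Real.log_mul hx.1.ne' (by positivity)] at h2
      linarith
  have h1 := hanti ⟨le_rfl, by norm_num⟩ ⟨by norm_num, le_rfl⟩ (by norm_num : (0 : ℝ) ≤ 1 / 6)
  simp only [ll_zero, zero_mul, add_zero, sub_zero] at h1
  have h2 : Real.log (π / 3) = Real.log (1 / 6) + Real.log (2 * π) := by
    rw [← Real.log_mul (by norm_num) (by positivity)]
    congr 1
    ring
  rw [h2]
  linarith only [h1]

/-- (B7) -/
theorem KK_big {ρ c h ξ : ℝ} (hρ : 1 ≤ ρ) (c0 : 0 < c) (hc : c ≤ 1 / 4) (S : Saddle ρ c h ξ) :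
    2 * π * ρ * c * h < KK ρ c h ξ (x0 h ξ) := by
  have hh := S.hpos
  have hpi := Real.pi_pos
  obtain ⟨m, hm, hgap⟩ := KK_gap hρ hc S
  have h1 := hgap c ⟨c0.le, le_rfl⟩ (1 / 6) ⟨by norm_num, by norm_num⟩
  have h2 : 0 ≤ m * (c - ξ) ^ 2 := by positivity
  have h3 : win h (1 / 4) (1 / 6) ≤ win h c (1 / 6) :=
    win_anti hh (by norm_num) (by norm_num) ⟨c0.le, by linarith only [hc, c0]⟩ ⟨by norm_num, by norm_num⟩ hc
  have h4 : ll (5 / 12) - ll (1 / 12) ≤ win h (1 / 4) (1 / 6) := by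
    have e : ll (5 / 12) - ll (1 / 12) =
        ∫ u in (1 / 12 : ℝ)..(5 / 12), Real.log (2 * Real.sin (π * (1 / 2 - u))) := by
      rw [intervalIntegral.integral_comp_sub_left (fun x => Real.log (2 * Real.sin (π * x)))]
      unfold ll
      rw [intervalIntegral.integral_interval_sub_left (log_sin_int _ _) (log_sin_int _ _)]
      norm_num
    rw [e]
    unfold win
    rw [show (1 / 4 : ℝ) - 1 / 6 = 1 / 12 by norm_num, show (1 / 4 : ℝ) + 1 / 6 = 5 / 12 by norm_num]
    have hint : IntervalIntegrable (fun u => Real.log (2 * Real.sin (π * (1 / 2 - u)))) volume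
        (1 / 12) (5 / 12) := by
      have := (log_sin_int (1 / 2 - 1 / 12) (1 / 2 - 5 / 12)).comp_sub_left (1 / 2)
      simpa using this
    apply intervalIntegral.integral_mono_on (by norm_num) hint (ee_int hh _ _)
    intro x hx
    exact ee_ge_log_cos hh (by linarith only [hx.1, hx, hc, c0]) (by linarith only [hx.2, hx, hc, c0])
  have h5 := ll_dup
  have h6 := ll_sixth
  have h7 : Real.log (π / 3) ≤ π / 3 - 1 := Real.log_le_sub_one_of_pos (by positivity)
  have h8 := Real.pi_lt_d2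
  have h9 : 2 * π * ρ * h < 3 / 2 := by
    by_contra hcon
    push Not at hcon
    have g1 := S.small
    have g2 := one_le_C h
    have g3 : Real.cosh (3 / 2) ≤ Real.cosh (2 * π * ρ * h) := by
      rw [Real.cosh_le_cosh, abs_of_pos (by norm_num), abs_of_nonneg (by linarith only [hcon, hc, c0])]
      exact hcon
    have g4 : 2 < Real.cosh (3 / 2) := by
      have e1 : Real.cosh (3 / 2) = 2 * Real.cosh (3 / 4) ^ 2 - 1 := by
        rw [show (3 / 2 : ℝ) = 2 * (3 / 4) by norm_num, Real.cosh_two_mul, Real.sinh_sq]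
        ring
      have e2 : 2 * Real.sinh (3 / 8) ^ 2 + 1 = Real.cosh (3 / 4) := by
        rw [show (3 / 4 : ℝ) = 2 * (3 / 8) by norm_num, Real.cosh_two_mul, Real.cosh_sq]
        ring
      have e3 : (3 / 8 : ℝ) < Real.sinh (3 / 8) := Real.self_lt_sinh_iff.2 (by norm_num)
      nlinarith only [e3, c0, e2, e1, hc]
    have g5 : Real.cosh (2 * π * ρ * h) ≤ Real.cosh (2 * π * ρ * h) * Real.cosh (2 * π * h) := by
      nlinarith only [Real.cosh_pos (2 * π * ρ * h), hc, g4, g1, c0, g3, g2]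
    linarith only [g5, g4, g3, g1]
  have h10 : KK ρ c h c (1 / 6) = - 2 * ll (1 / 6) + win h c (1 / 6) := by
    unfold KK
    ring
  have h11 : 2 * π * ρ * c * h ≤ 3 / 8 := by
    have : 2 * π * ρ * c * h = c * (2 * π * ρ * h) := by ring
    rw [this]
    have : 0 < 2 * π * ρ * h := by positivity
    nlinarith only [h9, c0, hc]
  rw [h10] at h1
  linarith only [h11, h8, h7, h6, h5, h4, h3, h2, h1, hc, c0]

end Pool.Agent.Helper11.TB
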