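import Pool.Agent.Helper11.TB.Ee

/-!
# Monotonicity of `win`, sign of `ff`
-/

namespace Pool.Agent.Helper11.TB

open Real MeasureTheory Filter Topology
open Pool.Agent.Helper9.TB

lemma cos_diff (ξ τ : ℝ) : Real.cos (2 * π * (ξ - τ)) - Real.cos (2 * π * (ξ + τ)) =
    2 * Real.sin (2 * π * ξ) * Real.sin (2 * π * τ) := by
  rw [mul_sub, mul_add, Real.cos_sub, Real.cos_add]
  ring

lemma sin_two_pi_nonneg {x : ℝ} (h0 : 0 ≤ x) (h1 : x ≤ 1 / 2) : 0 ≤ Real.sin (2 * π * x) := by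
  have hpi := Real.pi_pos
  apply Real.sin_nonneg_of_nonneg_of_le_pi
  · positivity
  · nlinarith only [hpi, h1]

lemma ee_shift_le {h : ℝ} (hh : 0 < h) {ξ τ : ℝ} (h0 : 0 ≤ ξ) (h1 : ξ ≤ 1 / 2) (t0 : 0 ≤ τ)
    (t1 : τ ≤ 1 / 2) : ee h (ξ + τ) ≤ ee h (ξ - τ) := by
  unfold ee
  have h3 := cos_diff ξ τ
  have h4 := mul_nonneg (sin_two_pi_nonneg h0 h1) (sin_two_pi_nonneg t0 t1)
  have h5 : Real.log (2 * (Real.cosh (2 * π * h) + Real.cos (2 * π * (ξ + τ)))) ≤
      Real.log (2 * (Real.cosh (2 * π * h) + Real.cos (2 * π * (ξ - τ)))) :=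
    Real.log_le_log (arg_pos hh _) (by linarith only [h4, h3])
  linarith only [h5]

lemma win_deriv_left {h : ℝ} (hh : 0 < h) (τ ξ : ℝ) :
    HasDerivAt (fun ξ => win h ξ τ) (ee h (ξ + τ) - ee h (ξ - τ)) ξ := by
  have e : (fun ξ => win h ξ τ) = fun ξ => EE h (ξ + τ) - EE h (ξ - τ) :=
    funext fun ξ => win_eq hh ξ τ
  rw [e]
  exact ((EE_deriv hh (ξ + τ)).comp_add_const ξ τ).sub ((EE_deriv hh (ξ - τ)).comp_sub_const ξ τ)

lemma win_deriv_right {h : ℝ} (hh : 0 < h) (ξ τ : ℝ) :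
    HasDerivAt (fun τ => win h ξ τ) (ee h (ξ + τ) + ee h (ξ - τ)) τ := by
  have e : (fun τ => win h ξ τ) = fun τ => EE h (ξ + τ) - EE h (ξ - τ) :=
    funext fun τ => win_eq hh ξ τ
  rw [e]
  have h1 := ((EE_deriv hh (ξ + τ)).comp_const_add ξ τ).sub
    ((EE_deriv hh (ξ - τ)).comp_const_sub ξ τ)
  refine h1.congr_deriv ?_
  ring

lemma win_anti {h : ℝ} (hh : 0 < h) {τ : ℝ} (t0 : 0 ≤ τ) (t1 : τ ≤ 1 / 2) :
    AntitoneOn (fun ξ => win h ξ τ) (Set.Icc 0 (1 / 2)) := by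
  apply antitoneOn_of_deriv_nonpos (convex_Icc _ _)
  · exact fun x _ => (win_deriv_left hh τ x).continuousAt.continuousWithinAt
  · exact fun x _ => (win_deriv_left hh τ x).differentiableAt.differentiableWithinAt
  · intro x hx
    rw [interior_Icc] at hx
    rw [(win_deriv_left hh τ x).deriv]
    have := ee_shift_le hh hx.1.le hx.2.le t0 t1
    linarith

lemma win_le_zero {h : ℝ} (hh : 0 < h) {ξ τ : ℝ} (h0 : -(1 / 2) ≤ ξ) (h1 : ξ ≤ 1 / 2)
    (t0 : 0 ≤ τ) (t1 : τ ≤ 1 / 2) : win h ξ τ ≤ win h 0 τ := by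
  rcases le_total 0 ξ with h2 | h2
  · exact win_anti hh t0 t1 ⟨le_rfl, by norm_num⟩ ⟨h2, h1⟩ h2
  · rw [← win_neg]
    exact win_anti hh t0 t1 ⟨le_rfl, by norm_num⟩ ⟨by linarith only [h2], by linarith only [h0]⟩ (by linarith only [h2])

lemma win_mono_h {h h' : ℝ} (hh : 0 < h) (hle : h ≤ h') {ξ τ : ℝ} (t0 : 0 ≤ τ) :
    win h ξ τ ≤ win h' ξ τ := by
  unfold win
  apply intervalIntegral.integral_mono_on (by linarith) (ee_int hh _ _)
    (ee_int (hh.trans_le hle) _ _)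
  exact fun x _ => ee_mono hh hle x

/-- (B2) -/
theorem KK_left {ρ c h ξ τ : ℝ} (hρ : 0 ≤ ρ) (hh : 0 < h) (x0 : -1 / 2 ≤ ξ) (x1 : ξ ≤ 0)
    (t0 : 0 ≤ τ) (t1 : τ ≤ 1 / 2) : KK ρ c h ξ τ ≤ KK ρ c h 0 τ := by
  unfold KK
  have h1 := win_le_zero hh (by linarith only [x0] : -(1 / 2) ≤ ξ) (by linarith only [x1]) t0 t1
  have hpi := Real.pi_pos
  have h2 : 2 * π * ρ * (ξ - c) * h ≤ 2 * π * ρ * (0 - c) * h := by
    have : 0 ≤ (2 * π * ρ * h) * (0 - ξ) := mul_nonneg (by positivity) (by linarith)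
    linarith only [this]
  linarith only [h2, h1]

/-- (B3) -/
theorem KK_mono_h {ρ c h h' τ : ℝ} (hh : 0 < h') (hle : h' ≤ h) (t0 : 0 ≤ τ) :
    KK ρ c h' c τ ≤ KK ρ c h c τ := by
  unfold KK
  have := win_mono_h hh hle (ξ := c) t0
  rw [sub_self]
  linarith

/-- (B4) -/
theorem KK_right {ρ c h' ξ τ : ℝ} (hh : 0 < h') (c0 : 0 ≤ c) (x0 : c ≤ ξ) (x1 : ξ ≤ 1 / 2)
    (t0 : 0 ≤ τ) (t1 : τ ≤ 1 / 2) :
    KK ρ c h' ξ τ ≤ 2 * π * ρ * (ξ - c) * h' + KK ρ c h' c τ := by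
  unfold KK
  have h1 : win h' ξ τ ≤ win h' c τ :=
    win_anti hh t0 t1 ⟨c0, by linarith only [x1, x0]⟩ ⟨by linarith, x1⟩ x0
  rw [sub_self]
  linarith only [h1]

/-! ### the sign of `ff` -/

/-- the affine function whose sign is the sign of `ff` -/
noncomputable def phi (h ξ t : ℝ) : ℝ :=
  2 - Real.cos (2 * π * ξ) ^ 2 - Real.cosh (2 * π * h) ^ 2 -
    2 * t * (1 + Real.cos (2 * π * ξ) * Real.cosh (2 * π * h))

lemma prod_form (h ξ x : ℝ) :
    (1 - Real.cos (2 * π * x)) ^ 2 - (Real.cosh (2 * π * h) + Real.cos (2 * π * (ξ + x))) *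
      (Real.cosh (2 * π * h) + Real.cos (2 * π * (ξ - x))) = phi h ξ (Real.cos (2 * π * x)) := by
  unfold phi
  have e1 : Real.cos (2 * π * (ξ + x)) = Real.cos (2 * π * ξ) * Real.cos (2 * π * x) -
      Real.sin (2 * π * ξ) * Real.sin (2 * π * x) := by rw [mul_add, Real.cos_add]
  have e2 : Real.cos (2 * π * (ξ - x)) = Real.cos (2 * π * ξ) * Real.cos (2 * π * x) +
      Real.sin (2 * π * ξ) * Real.sin (2 * π * x) := by rw [mul_sub, Real.cos_sub]
  rw [e1, e2]
  have h1 := Real.sin_sq_add_cos_sq (2 * π * ξ)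
  have h2 := Real.sin_sq_add_cos_sq (2 * π * x)
  linear_combination (1 - Real.cos (2 * π * x) ^ 2) * h1 + Real.sin (2 * π * ξ) ^ 2 * h2

lemma cos_lt_one {x : ℝ} (h0 : 0 < x) (h1 : x < 1) : Real.cos (2 * π * x) < 1 := by
  have hpi := Real.pi_pos
  have h2 : 0 < Real.sin (π * x) := Real.sin_pos_of_pos_of_lt_pi (by positivity) (by nlinarith only [hpi, h1])
  rw [show 2 * π * x = 2 * (π * x) by ring, Real.cos_two_mul, Real.cos_sq']
  nlinarith only [h2]

lemma ff_eq {h : ℝ} (hh : 0 < h) (ξ : ℝ) {x : ℝ} (h0 : 0 < x) (h1 : x < 1) :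
    2 * ff h ξ x = Real.log ((1 - Real.cos (2 * π * x)) ^ 2) -
      Real.log ((Real.cosh (2 * π * h) + Real.cos (2 * π * (ξ + x))) *
      (Real.cosh (2 * π * h) + Real.cos (2 * π * (ξ - x)))) := by
  have hpi := Real.pi_pos
  have h2 : 0 < Real.sin (π * x) := Real.sin_pos_of_pos_of_lt_pi (by positivity) (by nlinarith only [hpi, h1])
  have h3 := cos_lt_one h0 h1
  have e1 : 2 * Real.log (2 * Real.sin (π * x)) = Real.log 2 + Real.log (1 - Real.cos (2 * π * x)) := by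
    have e2 : 2 * (1 - Real.cos (2 * π * x)) = (2 * Real.sin (π * x)) ^ 2 := by
      rw [show 2 * π * x = 2 * (π * x) by ring, Real.cos_two_mul, Real.cos_sq']
      ring
    rw [← Real.log_mul (by norm_num) (by linarith), e2, Real.log_pow]
    norm_num
  unfold ff ee
  have p1 := arg_pos' hh (ξ + x)
  have p2 := arg_pos' hh (ξ - x)
  rw [e1, Real.log_mul (by norm_num : (2 : ℝ) ≠ 0) p1.ne',
    Real.log_mul (by norm_num : (2 : ℝ) ≠ 0) p2.ne', Real.log_mul p1.ne' p2.ne', Real.log_pow]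
  push_cast
  ring

lemma ff_nonneg {h : ℝ} (hh : 0 < h) {ξ x : ℝ} (h0 : 0 < x) (h1 : x < 1)
    (hp : 0 ≤ phi h ξ (Real.cos (2 * π * x))) : 0 ≤ ff h ξ x := by
  have h2 := ff_eq hh ξ h0 h1
  have p1 := arg_pos' hh (ξ + x)
  have p2 := arg_pos' hh (ξ - x)
  rw [← prod_form] at hp
  have := Real.log_le_log (mul_pos p1 p2) (sub_nonneg.1 hp)
  linarith

lemma ff_nonpos {h : ℝ} (hh : 0 < h) {ξ x : ℝ} (h0 : 0 < x) (h1 : x < 1)
    (hp : phi h ξ (Real.cos (2 * π * x)) ≤ 0) : ff h ξ x ≤ 0 := by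
  have h2 := ff_eq hh ξ h0 h1
  have h3 := cos_lt_one h0 h1
  have : 0 < (1 - Real.cos (2 * π * x)) ^ 2 := by
    have : 0 < 1 - Real.cos (2 * π * x) := by linarith
    positivity
  rw [← prod_form] at hp
  have := Real.log_le_log this (sub_nonpos.1 hp)
  linarith

lemma ff_int {h : ℝ} (hh : 0 < h) (ξ a b : ℝ) : IntervalIntegrable (ff h ξ) volume a b := by
  unfold ff
  refine (((log_sin_int a b).const_mul 2).sub ?_).sub ?_
  · have := ee_cont hh
    exact Continuous.intervalIntegrable (by fun_prop) _ _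
  · have := ee_cont hh
    exact Continuous.intervalIntegrable (by fun_prop) _ _

lemma int_ff {h : ℝ} (hh : 0 < h) (ξ α : ℝ) :
    ∫ x in (0 : ℝ)..α, ff h ξ x = 2 * ll α - win h ξ α := by
  have hc := ee_cont hh
  have i1 : IntervalIntegrable (fun x => ee h (ξ + x)) volume 0 α :=
    Continuous.intervalIntegrable (by fun_prop) _ _
  have i2 : IntervalIntegrable (fun x => ee h (ξ - x)) volume 0 α :=
    Continuous.intervalIntegrable (by fun_prop) _ _
  unfold ff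
  rw [intervalIntegral.integral_sub (((log_sin_int 0 α).const_mul 2).sub i1) i2,
    intervalIntegral.integral_sub ((log_sin_int 0 α).const_mul 2) i1,
    intervalIntegral.integral_const_mul, intervalIntegral.integral_comp_add_left,
    intervalIntegral.integral_comp_sub_left, add_zero, sub_zero]
  have h1 := intervalIntegral.integral_add_adjacent_intervals (ee_int hh (ξ - α) ξ)
    (ee_int hh ξ (ξ + α))
  unfold ll win
  linarith

lemma EE_add_one {h : ℝ} (hh : 0 < h) (x : ℝ) : EE h (x + 1) = EE h x + π * h := by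
  unfold EE
  rw [← ee_integral hh]
  have h1 := intervalIntegral.integral_add_adjacent_intervals (ee_int hh 0 x) (ee_int hh x (x + 1))
  have h2 := (ee_periodic h).intervalIntegral_add_eq x 0
  rw [zero_add] at h2
  rw [← h1, h2]

/-- (B6) -/
theorem int_ff_refl {h : ℝ} (hh : 0 < h) (ξ τ : ℝ) :
    ∫ x in (0 : ℝ)..(1 - τ), ff h ξ x = -2 * π * h - 2 * ll τ + win h ξ τ := by
  rw [int_ff hh, ll_refl, win_eq hh, win_eq hh, show ξ + (1 - τ) = ξ - τ + 1 by ring, EE_add_one hh,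
    show EE h (ξ + τ) = EE h (ξ - (1 - τ) + 1) by congr 1; ring, EE_add_one hh]
  ring

lemma phi_one {h : ℝ} (hh : 0 < h) (ξ : ℝ) : phi h ξ 1 < 0 := by
  have h1 := arg_pos' hh ξ
  unfold phi
  nlinarith only [h1]

lemma cos_anti {x y : ℝ} (h0 : 0 ≤ x) (h1 : x ≤ y) (h2 : y ≤ 1 / 2) :
    Real.cos (2 * π * y) ≤ Real.cos (2 * π * x) := by
  have hpi := Real.pi_pos
  apply Real.cos_le_cos_of_nonneg_of_le_pi
  · positivity
  · nlinarith only [hpi, h2]
  · nlinarith only [hpi, h1]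

lemma Fderiv {h : ℝ} (hh : 0 < h) (ξ : ℝ) {x : ℝ} (h0 : 0 < x) (h1 : x < 1) :
    HasDerivAt (fun α => 2 * ll α - win h ξ α) (ff h ξ x) x := by
  refine (((ll_deriv h0 h1).const_mul 2).sub (win_deriv_right hh ξ x)).congr_deriv ?_
  unfold ff
  ring

lemma Fcont {h : ℝ} (hh : 0 < h) (ξ : ℝ) : Continuous (fun α => 2 * ll α - win h ξ α) := by
  have h1 := ll_cont
  have h2 : Continuous (fun τ => win h ξ τ) :=
    continuous_iff_continuousAt.2 fun x => (win_deriv_right hh ξ x).continuousAt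
  fun_prop

/-- (B5) -/
theorem int_ff_nonpos {h : ℝ} (hh : 0 < h) (ξ : ℝ) {α : ℝ} (a0 : 0 ≤ α) (a1 : α ≤ 1 / 2) :
    ∫ x in (0 : ℝ)..α, ff h ξ x ≤ 0 := by
  have hpi := Real.pi_pos
  rw [int_ff hh]
  rcases a0.eq_or_lt with rfl | a0
  · simp [ll_zero, win]
  have hp1 := phi_one hh ξ
  rcases le_or_gt (phi h ξ (Real.cos (2 * π * α))) 0 with hp | hp
  · have hanti : AntitoneOn (fun α => 2 * ll α - win h ξ α) (Set.Icc 0 α) := by
      apply antitoneOn_of_deriv_nonpos (convex_Icc _ _) (Fcont hh ξ).continuousOn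
      · intro x hx
        rw [interior_Icc] at hx
        exact (Fderiv hh ξ hx.1 (by linarith [hx.2])).differentiableAt.differentiableWithinAt
      · intro x hx
        rw [interior_Icc] at hx
        rw [(Fderiv hh ξ hx.1 (by linarith [hx.2])).deriv]
        apply ff_nonpos hh hx.1 (by linarith [hx.2])
        have t1 := cos_anti hx.1.le hx.2.le a1
        have t2 := Real.cos_le_one (2 * π * x)
        unfold phi at *
        rcases le_or_gt 0 (1 + Real.cos (2 * π * ξ) * Real.cosh (2 * π * h)) with hs | hs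
        · nlinarith only [mul_nonneg hs (sub_nonneg.2 t1), t1, hs, hp]
        · nlinarith only [mul_nonneg (neg_nonneg.2 hs.le) (sub_nonneg.2 t2), t2, hs, hp1]
    have := hanti ⟨le_rfl, a0.le⟩ ⟨a0.le, le_rfl⟩ a0.le
    simpa [ll_zero, win] using this
  · have hmono : MonotoneOn (fun α => 2 * ll α - win h ξ α) (Set.Icc α (1 / 2)) := by
      apply monotoneOn_of_deriv_nonneg (convex_Icc _ _) (Fcont hh ξ).continuousOn
      · intro x hx
        rw [interior_Icc] at hx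
        exact (Fderiv hh ξ (a0.trans hx.1)
          (by linarith [hx.2])).differentiableAt.differentiableWithinAt
      · intro x hx
        rw [interior_Icc] at hx
        rw [(Fderiv hh ξ (a0.trans hx.1) (by linarith [hx.2])).deriv]
        apply ff_nonneg hh (a0.trans hx.1) (by linarith [hx.2])
        have t1 := cos_anti a0.le hx.1.le hx.2.le
        have t2 := Real.cos_le_one (2 * π * α)
        unfold phi at *
        have hs : 0 ≤ 1 + Real.cos (2 * π * ξ) * Real.cosh (2 * π * h) := by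
          by_contra hs
          push Not at hs
          nlinarith only [mul_nonneg (neg_nonneg.2 hs.le) (sub_nonneg.2 t2), t2, hs, hp, hp1]
        nlinarith only [mul_nonneg hs (sub_nonneg.2 t1), t1, hs, hp]
    have h1 := hmono ⟨le_rfl, a1⟩ ⟨a1, le_rfl⟩ a1
    have h2 : win h ξ (1 / 2) = π * h := by
      rw [win_eq hh, show ξ + 1 / 2 = ξ - 1 / 2 + 1 by ring, EE_add_one hh]
      ring
    have h3 : 0 < π * h := by positivity
    simp only [h2, ll_half] at h1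
    linarith

end Pool.Agent.Helper11.TB
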